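import Pool.Agent.H32.N6W.TargetsL

/-!
# Two quadrics in `ℙ⁶`: the local lemma at the finite places
-/

set_option autoImplicit false

open Polynomial NumberField IsDedekindDomain Matrix Pool.Agent.H32.QC Pool.Agent.H34.N6
open Pool.Agent.H13.DEV Pool.Agent.H34.N6V Pool.Agent.H63.WT Pool.Agent.H32.N6W

namespace Pool.Agent.H1.N6W

theorem pf_LXF (hADC : Pool.Agent.H32.QC.T_ADC) (hEXF : T_EXF) (hLOCF : T_LOCF)
    (hTOTF : T_TOTF) : T_LXF := by
  intro k _ _ v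
  obtain ⟨hp, hc, x, hx⟩ := hADC k v
  letI nn : NontriviallyNormedField (v.adicCompletion k) :=
    { (inferInstance : NormedField (v.adicCompletion k)) with non_trivial := ⟨x, hx⟩ }
  obtain ⟨e, he⟩ := (hEXF (v.adicCompletion k)).1
  refine ⟨e, he, ?_, ?_⟩
  · intro P1 P2 D h1 h2 hs h7 hev hcop hr1 hr2 hcz
    rw [h1.natDegree_mul h2] at h7
    obtain ⟨G, g1, g2, g3, g4, g5, g6⟩ :=
      hLOCF (v.adicCompletion k) e he P1 P2 D h1 h2 hs h7 hev hcop hr1 hr2 hcz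
    exact ⟨G, ⟨g1, g2, g3, g4, g5⟩, g6⟩
  · intro P D A hP hs h7 hcop hr hA
    exact hTOTF (v.adicCompletion k) e he P D A hP hs h7 hcop hr hA.mon hA.sep hA.odd hA.cop
      hA.spl

end Pool.Agent.H1.N6W
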